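import Mathlib
import Pool.Agent.H.MP_f65ae4_nt.A

namespace Pool.Agent.Results.MP_f65ae4_nt.Yes

open Nat Finset Pool.Agent.H.MP_f65ae4_nt

/-- `M_k = (4k)!/(k!)^4`. -/
def M (k : ℕ) : ℚ := ((4 * k)! : ℚ) / (k ! : ℚ) ^ 4

/-- `S_n = ∑_{k<n} (20k+3) M_k (-1024)^(n-1-k)`. -/
def S (n : ℕ) : ℚ := ∑ k ∈ range n, (20 * k + 3) * M k * (-1024) ^ (n - 1 - k)

/-- `a_n = S_n / (2n(2n+1) C(2n,n))`. -/
def a (n : ℕ) : ℚ := S n / (2 * n * (2 * n + 1) * ((2 * n).choose n : ℚ))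

lemma S_succ (n : ℕ) : S (n + 1) = -1024 * S n + (20 * n + 3) * M n := by
  unfold S
  rw [sum_range_succ, mul_sum]
  congr 1
  · refine sum_congr rfl fun k hk => ?_
    have := mem_range.1 hk
    rw [show n + 1 - 1 - k = (n - 1 - k) + 1 by omega, pow_succ]; ring
  · simp

def Cb (n : ℕ) : ℚ := 2 ^ n * O n / n !

lemma Cb_eq (n : ℕ) : ((2 * n).choose n : ℚ) = Cb n := by
  have h := Nat.add_choose_mul_factorial_mul_factorial n n
  rw [← two_mul, O_fact] at h
  have h' : ((2 * n).choose n : ℚ) * n ! * n ! = 2 ^ n * n ! * O n := by exact_mod_cast h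
  unfold Cb
  have : (n ! : ℚ) ≠ 0 := by positivity
  field_simp
  field_simp at h'
  linarith

lemma M_eq (n : ℕ) : M n = 2 ^ (3 * n) * O n * O (2 * n) / (n ! : ℚ) ^ 3 := by
  unfold M
  rw [show 4 * n = 2 * (2 * n) by ring, O_fact, O_fact]
  push_cast
  field_simp
  ring

/-- `W(n,k)` at `k = c+1`, `n = c+1+j`. -/
def W (c j : ℕ) : ℚ := (-1) ^ (c + 1) * 2 ^ (3 * c + 2 * j + 3) * O (3 * c + 2 * j + 2) /
  ((O (c + 1) : ℚ) ^ 2 * (c + j)! * j !)

def T (c j : ℕ) : ℚ := -((c + 1 + j) * Cb (c + 1 + j)) / 16 * W c j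

def Phi (k j : ℕ) : ℚ := (-1) ^ k * 2 ^ (3 * k + 2 * j) * (18 * k + 20 * j + 3) * Cb (k + j) *
  O (3 * k + 2 * j) / ((O k : ℚ) ^ 2 * (k + j)! * j !)

lemma Opos (m : ℕ) : (0 : ℚ) < O m := by exact_mod_cast O_pos m
lemma Os (m : ℕ) : (O (m + 1) : ℚ) = O m * (2 * m + 1) := by rw [O]; push_cast; ring
lemma Fs (m : ℕ) : ((m + 1)! : ℚ) = (m + 1) * m ! := by rw [factorial_succ]; push_cast; ring

lemma wz1 (c j : ℕ) : T c (j + 1) + 1024 * T c j = Phi c (j + 1) - Phi (c + 1) j := by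
  unfold T W Phi Cb
  have := Opos c
  have := Opos (3 * c + 2 * j + 2)
  have := Opos (c + 1 + j)
  rw [show 3 * c + 2 * (j + 1) + 2 = 3 * c + 2 * j + 2 + 1 + 1 by ring,
    show 3 * c + 2 * (j + 1) = 3 * c + 2 * j + 2 by ring,
    show 3 * (c + 1) + 2 * j = 3 * c + 2 * j + 2 + 1 by ring,
    show c + 1 + (j + 1) = c + 1 + j + 1 by ring, show c + (j + 1) = c + 1 + j by ring]
  simp only [Os, Fs]
  rw [show c + 1 + j = c + j + 1 by ring] at *
  simp only [Fs]
  push_cast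
  field_simp
  ring

lemma wz2 (c : ℕ) : T c 0 = Phi c 0 := by
  unfold T W Phi Cb
  have := Opos c
  have := Opos (3 * c)
  simp only [mul_zero, add_zero, show 3 * c + 2 = 3 * c + 1 + 1 from rfl, Os, Fs]
  push_cast
  field_simp
  ring

lemma Phi0 (n : ℕ) : Phi 0 n = (20 * n + 3) * M n := by
  rw [M_eq]
  unfold Phi Cb
  simp only [mul_zero, zero_add, O]
  push_cast
  field_simp
  ring

lemma S_eq (n : ℕ) : S n = ∑ c ∈ range n, T c (n - 1 - c) := by
  induction n with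
  | zero => simp [S]
  | succ n ih =>
    rw [S_succ, ih, sum_range_succ, ← Phi0]
    have h : ∑ c ∈ range n, T c (n + 1 - 1 - c) + 1024 * ∑ c ∈ range n, T c (n - 1 - c) =
        ∑ c ∈ range n, (Phi c (n - c) - Phi (c + 1) (n - (c + 1))) := by
      rw [mul_sum, ← sum_add_distrib]
      refine sum_congr rfl fun c hc => ?_
      have := mem_range.1 hc
      rw [show n + 1 - 1 - c = (n - 1 - c) + 1 by omega, wz1,
        show n - c = (n - 1 - c) + 1 by omega, show n - (c + 1) = n - 1 - c by omega]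
    rw [sum_range_sub' (fun c => Phi c (n - c))] at h
    simp only [Nat.sub_zero, Nat.sub_self, Nat.add_sub_cancel] at h ⊢
    rw [wz2]
    linarith

lemma Zex (c j : ℕ) (h : 1 ≤ c + j) : ∃ z : ℤ, W c j = 32 * (2 * c + 3) * z := by
  obtain ⟨z, hz⟩ := dvdZ c j h
  refine ⟨(-1) ^ (c + 1) * z, ?_⟩
  have hz' : (2 : ℚ) ^ (3 * c + 2 * j) * O (3 * c + 2 * j + 2) =
      4 * (O (c + 1) * O (c + 2) * (c + j)! * j !) * z := by exact_mod_cast hz
  unfold W
  have := Opos (c + 1)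
  rw [show c + 2 = c + 1 + 1 from rfl, Os (c + 1)] at hz'
  rw [div_eq_iff (by positivity)]
  push_cast at hz' ⊢
  linear_combination (8 * (-1) ^ (c + 1)) * hz'

lemma ab1 (c j : ℕ) : W c (j + 1) + W (c + 1) j * (2 * c + 3) / 2 - W c (j + 1) * (2 * c + 1) / 2 =
    -(2 * (c + 2 + j) + 1) * W c (j + 1) * (2 * c + 4 * j + 3) / (2 * (2 * c + 3)) := by
  unfold W
  have := Opos (c + 1)
  have := Opos (3 * c + 2 * j + 4)
  rw [show 3 * (c + 1) + 2 * j + 2 = 3 * c + 2 * j + 4 + 1 by ring,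
    show 3 * c + 2 * (j + 1) + 2 = 3 * c + 2 * j + 4 by ring, show c + (j + 1) = c + 1 + j by ring]
  rw [Os (c + 1), Os (3 * c + 2 * j + 4), Fs j]
  push_cast
  field_simp
  ring

lemma abel (n : ℕ) : ∑ c ∈ range (n + 1), W c (n - c) = W 0 n / 2 -
    (2 * (n + 1) + 1) * ∑ c ∈ range (n + 1), W c (n - c) * (4 * n - 2 * c - 1) / (2 * (2 * c + 3)) := by
  rw [sum_range_succ, sum_range_succ, mul_add, mul_sum]
  have h := sum_range_sub (fun c => W c (n - c) * (2 * c + 1) / 2) n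
  have h2 : ∑ c ∈ range n, W c (n - c) + ∑ c ∈ range n, (W (c + 1) (n - (c + 1)) *
      (2 * ((c + 1 : ℕ) : ℚ) + 1) / 2 - W c (n - c) * (2 * c + 1) / 2) =
      -∑ c ∈ range n, (2 * ((n : ℚ) + 1) + 1) *
        (W c (n - c) * (4 * n - 2 * c - 1) / (2 * (2 * c + 3))) := by
    rw [← sum_add_distrib, ← sum_neg_distrib]
    refine sum_congr rfl fun c hc => ?_
    obtain ⟨j, rfl⟩ : ∃ j, n = c + 1 + j := ⟨n - 1 - c, by have := mem_range.1 hc; omega⟩
    rw [show c + 1 + j - c = j + 1 by omega, show c + 1 + j - (c + 1) = j by omega]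
    have := ab1 c j
    push_cast
    field_simp
    field_simp at this
    linear_combination this
  rw [h] at h2
  simp only [Nat.sub_self, Nat.sub_zero, Nat.cast_zero] at h2 ⊢
  have : (2 * ((n : ℚ) + 1) + 1) * (W n 0 * (4 * n - 2 * n - 1) / (2 * (2 * n + 3))) =
      W n 0 * (2 * n - 1) / 2 := by
    field_simp; ring
  rw [this]
  linarith

lemma W0 (n : ℕ) : ∃ z : ℤ, W 0 n = (2 * (n + 1) + 1) * z := by
  refine ⟨-2 * (n + 1) ^ 2 * catalan (2 * (n + 1)) * (2 * (n + 1)).choose (n + 1), ?_⟩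
  have h := succ_mul_catalan_eq_centralBinom (2 * (n + 1))
  have h' : ((2 * (n + 1) + 1 : ℚ)) * catalan (2 * (n + 1)) = Cb (2 * (n + 1)) := by
    rw [← Cb_eq, ← Nat.centralBinom_eq_two_mul_choose, ← h]; push_cast; ring
  push_cast
  rw [Cb_eq]
  have e : (2 * ((n : ℚ) + 1) + 1) * (-2 * (n + 1) ^ 2 * catalan (2 * (n + 1)) * Cb (n + 1)) =
      -2 * (n + 1) ^ 2 * Cb (2 * (n + 1)) * Cb (n + 1) := by rw [← h']; ring
  rw [e]
  unfold W Cb
  rw [O_fact, show 3 * 0 + 2 * n + 2 = 2 * (n + 1) by ring]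
  have := Opos n
  simp only [zero_add, Fs, O]
  push_cast
  simp only [Fs]
  field_simp
  ring

lemma M_succ (n : ℕ) (hn : 1 ≤ n) : (20 * ((n : ℚ) + 1) + 3) * M (n + 1) ≤ 512 * ((20 * n + 3) * M n) := by
  have e : M (n + 1) = M n * ((4 * n + 4) * (4 * n + 3) * (4 * n + 2) * (4 * n + 1) / (n + 1) ^ 4) := by
    unfold M
    rw [show 4 * (n + 1) = 4 * n + 1 + 1 + 1 + 1 by ring]
    simp only [Fs]
    push_cast
    field_simp
    ring
  have hM : 0 < M n := by unfold M; positivity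
  have h1 : (4 * n + 4) * (4 * n + 3) * (4 * n + 2) * (4 * n + 1) / ((n : ℚ) + 1) ^ 4 ≤ 256 := by
    rw [div_le_iff₀ (by positivity)]
    have : (0 : ℚ) ≤ n := by positivity
    nlinarith [pow_nonneg this 2, pow_nonneg this 3]
  have h2 : (1 : ℚ) ≤ n := by exact_mod_cast hn
  rw [e]
  have h3 : M n * ((4 * n + 4) * (4 * n + 3) * (4 * n + 2) * (4 * n + 1) / ((n : ℚ) + 1) ^ 4)
      ≤ M n * 256 := by gcongr
  nlinarith

lemma pos (n : ℕ) : 2 * ((20 * ((n : ℚ) + 1) + 3) * M (n + 1)) ≤ 1024 * ((-1) ^ n * S (n + 1)) := by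
  induction n with
  | zero => simp [S, M, Nat.factorial]; norm_num
  | succ n ih =>
    rw [S_succ (n + 1)]
    have h := M_succ (n + 1) (by omega)
    have hM : 0 < M (n + 1) := by unfold M; positivity
    push_cast at *
    have h0 : 0 < (20 * ((n : ℚ) + 1) + 3) * M (n + 1) := by positivity
    rcases neg_one_pow_eq_or ℚ n with h1 | h1 <;> rw [pow_succ, h1] <;> rw [h1] at ih <;> linarith

theorem result (n : ℕ) (hn : 2 ≤ n) : ∃ z : ℤ, 0 < z ∧ (-1) ^ (n - 1) * a n = z := by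
  obtain ⟨n, rfl⟩ : ∃ m, n = m + 1 := ⟨n - 1, by omega⟩
  have hC : 0 < Cb (n + 1) := by unfold Cb; have := Opos (n + 1); positivity
  have ha : (2 * (n + 1) + 1) * a (n + 1) = -(∑ c ∈ range (n + 1), W c (n - c)) / 32 := by
    unfold a
    rw [S_eq, Cb_eq]
    have : ∑ c ∈ range (n + 1), T c (n + 1 - 1 - c) =
        -((n + 1) * Cb (n + 1)) / 16 * ∑ c ∈ range (n + 1), W c (n - c) := by
      rw [mul_sum]
      refine sum_congr rfl fun c hc => ?_
      obtain ⟨j, rfl⟩ : ∃ j, n = c + j := ⟨n - c, by have := mem_range.1 hc; omega⟩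
      rw [show c + j + 1 - 1 - c = j by omega, show c + j - c = j by omega, T,
        show c + 1 + j = c + j + 1 by ring]
      push_cast; ring
    rw [this]
    push_cast
    field_simp
    ring
  have hz : ∀ c ∈ range (n + 1), ∃ z : ℤ, W c (n - c) = 32 * (2 * c + 3) * z := fun c hc =>
    Zex c _ (by have := mem_range.1 hc; omega)
  choose! z hz using hz
  obtain ⟨w, hw⟩ := W0 n
  have i1 : (2 * (n + 1) + 1) * a (n + 1) = ((-∑ c ∈ range (n + 1), (2 * c + 3) * z c : ℤ) : ℚ) := by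
    rw [ha, sum_congr rfl hz]
    push_cast
    rw [neg_div, sum_div]
    congr 1
    exact sum_congr rfl fun c _ => by ring
  have i2 : 64 * a (n + 1) =
      ((-w + ∑ c ∈ range (n + 1), 32 * z c * (4 * n - 2 * c - 1) : ℤ) : ℚ) := by
    rw [abel, hw] at ha
    have e : ∑ c ∈ range (n + 1), W c (n - c) * (4 * n - 2 * c - 1) / (2 * (2 * c + 3)) =
        (∑ c ∈ range (n + 1), 32 * (z c : ℚ) * (4 * n - 2 * c - 1)) / 2 := by
      rw [sum_div]
      refine sum_congr rfl fun c hc => ?_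
      rw [hz c hc]
      field_simp
    rw [e] at ha
    push_cast
    have hne : (2 * ((n : ℚ) + 1) + 1) ≠ 0 := by positivity
    apply mul_left_cancel₀ hne
    linear_combination 64 * ha
  obtain ⟨u, v, huv⟩ : IsCoprime (2 * ((n : ℤ) + 1) + 1) 64 := by
    have : IsCoprime (2 * ((n : ℤ) + 1) + 1) 2 := ⟨1, -(n + 1), by ring⟩
    simpa using this.pow_right (n := 6)
  have huv' : (u : ℚ) * (2 * (n + 1) + 1) + v * 64 = 1 := by exact_mod_cast huv
  set x := (-∑ c ∈ range (n + 1), (2 * c + 3) * z c : ℤ)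
  set y := (-w + ∑ c ∈ range (n + 1), 32 * z c * (4 * n - 2 * c - 1) : ℤ)
  have ia : a (n + 1) = ((u * x + v * y : ℤ) : ℚ) := by
    push_cast
    rw [← i1, ← i2]
    linear_combination (-a (n + 1)) * huv'
  refine ⟨(-1) ^ n * (u * x + v * y), ?_, by rw [ia]; push_cast; simp⟩
  have hp : (0 : ℚ) < (-1) ^ n * a (n + 1) := by
    have h := pos n
    have hM : 0 < M (n + 1) := by unfold M; positivity
    have h0 : 0 < (20 * ((n : ℚ) + 1) + 3) * M (n + 1) := by positivity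
    unfold a
    rw [Cb_eq, ← mul_div_assoc]
    exact div_pos (by linarith) (by positivity)
  rw [ia] at hp
  exact_mod_cast hp

end Pool.Agent.Results.MP_f65ae4_nt.Yes
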